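import Pool.Agent.MP_c69980_ag.H43.Spec1

/-!
A reduced divisor tangent to a derivation is invariant.
-/

set_option autoImplicit false

namespace Pool.Agent.MP_c69980_ag.H43

open MvPolynomial H60 Finset

theorem sHt (h1 : SKei) : SHt := by
  intro F R D E ξ n hD hE ⟨z, hz, iz⟩ hn f f₁ f₂ e1 e2 x0 x1 x2 x y hx hy
  let d : R →+ R :=
    { toFun := fun u => f₂ * ⟨D u, hD u u.2⟩ - f₁ * ⟨E u, hE u u.2⟩
      map_zero' := Subtype.ext (by simp)
      map_add' := fun u v => Subtype.ext (by simp; ring) }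
  have dv : ∀ u : R, (d u : ℂ) = f₂ * D u - f₁ * E u := fun u => rfl
  have dl : ∀ u v : R, d (u * v) = d u * v + u * d v := fun u v => Subtype.ext (by
    simp only [dv, MulMemClass.coe_mul, AddMemClass.coe_add, Derivation.leibniz, smul_eq_mul]
    ring)
  have df : d f = 0 := Subtype.ext (by rw [dv, ← e1, ← e2]; simp [mul_comm])
  have hp : (RingHom.ker ξ).IsPrime := RingHom.ker_isPrime ξ
  obtain ⟨q, q1, q2, q3, q4⟩ := h1.1 R Unit (fun _ => d) (fun _ => dl) (fun m => by
    have : ((m : F) + 1) ≠ 0 := Nat.cast_add_one_ne_zero m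
    simpa using (IsUnit.mk0 _ this).map (algebraMap F R)) _ hp
  have fq : f ∈ q := q4 (Ideal.span {f}) (fun _ u hu => by
    obtain ⟨g, rfl⟩ := Ideal.mem_span_singleton'.1 hu
    rw [dl, df, mul_zero, add_zero]
    exact Ideal.mul_mem_left _ _ (Ideal.mem_span_singleton_self f))
    ((Ideal.span_singleton_le_iff_mem _).2 x0) (Ideal.mem_span_singleton_self f)
  have f0 : f ∉ (⊥ : Ideal R) := fun h => x2 (by
    rw [Ideal.mem_bot] at h
    have : f₂ = 0 := Subtype.ext (by rw [e2, h]; simp)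
    rw [this, map_zero])
  have xq : x ∈ q := by
    by_contra xq
    choose w hw using hz
    have a1 := h1.2 F R q _ q1 q2 n w (fun H hH => by
      refine algebraicIndependent_iff.1 iz H ?_
      rw [← funext hw]
      exact (AlgHom.congr_fun (comp_aeval (f := w) ξ) H).symm.trans hH) x hx xq
    have a2 := h1.2 F R ⊥ q Ideal.isPrime_bot bot_le _ _ a1 f fq f0
    refine hn ⟨fun i => ((Fin.cons f (Fin.cons x w : Fin (n + 1) → R) : Fin (n + 2) → R) i : ℂ),
      fun i => Subtype.property _, algebraicIndependent_iff.2 fun H hH => a2 H ?_⟩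
    exact Ideal.mem_bot.2 (Subtype.ext
      ((AlgHom.congr_fun (comp_aeval (f := _) R.val) H).trans hH))
  have a : ξ (d x) = 0 := q2 (q3 () x xq)
  have b : d x = f₂ * y - f₁ * ⟨E x, hE x x.2⟩ := Subtype.ext (by rw [dv, ← hy]; rfl)
  rw [b, map_sub, map_mul, map_mul, x1, zero_mul, sub_zero] at a
  exact (mul_eq_zero.1 a).resolve_left x2

end Pool.Agent.MP_c69980_ag.H43
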